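import Pool.Agent.H25.DP.Targets

/-!
# The smoothed oscillatory integral: second derivative bound, and both bounds together
-/

set_option autoImplicit false

open Complex MeasureTheory Set

namespace Pool.Agent.H14.DP

open Pool.Agent.H25.DL Pool.Agent.H25.DP

lemma log_le_half {T : ℝ} (hT2 : 16 ≤ T) : Real.log T ≤ T / 2 := by
  have hTpos : 0 < T := by linarith
  have h1 : Real.log T = 2 * Real.log (Real.sqrt T) := by
    rw [Real.log_sqrt hTpos.le]; ring
  have h2 := Real.log_le_sub_one_of_pos (Real.sqrt_pos.2 hTpos)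
  have h3 : Real.sqrt T * Real.sqrt T = T := Real.mul_self_sqrt hTpos.le
  have h4 : 4 ≤ Real.sqrt T := by
    rw [show (4 : ℝ) = Real.sqrt 16 by
      rw [show (16 : ℝ) = 4 ^ 2 by norm_num, Real.sqrt_sq (by norm_num)]]
    exact Real.sqrt_le_sqrt hT2
  rw [h1]
  nlinarith

lemma unit_of_mem {H W u : ℝ} (hW : 0 < W) (hu : u ∈ Icc H (H + W)) :
    0 ≤ (u - H) / W ∧ (u - H) / W ≤ 1 := by
  refine ⟨div_nonneg (by linarith [hu.1]) hW.le, ?_⟩
  rw [div_le_one hW]
  linarith [hu.2]

lemma io_trivial (d B η H W y L : ℝ) (hW : 0 < W) : ‖IO d B η H W y L‖ ≤ W := by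
  unfold Pool.Agent.H25.DP.IO
  have h := intervalIntegral.norm_integral_le_of_norm_le_const (a := H) (b := H + W) (C := 1)
    (f := fun u : ℝ => (om ((u - H) / W) : ℂ) * cexp ((phs d B η L (u + y) : ℝ) * I))
    (fun u hu => by
      rw [uIoc_of_le (by linarith)] at hu
      have hu' : u ∈ Icc H (H + W) := ⟨hu.1.le, hu.2⟩
      obtain ⟨h0, h1⟩ := unit_of_mem hW hu'
      rw [norm_mul, Complex.norm_exp_ofReal_mul_I, mul_one, Complex.norm_real, Real.norm_eq_abs]
      exact abs_om_le h0 h1)
  refine h.trans ?_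
  rw [one_mul, abs_of_nonneg (by linarith)]
  linarith

theorem ioa (hWV : T_WV) : T_IOA := by
  intro d B η hd
  refine ⟨1 + 104 * Real.sqrt (6 / d), max 16 (24 * |η| / d), by positivity,
    fun T hT H W y L hTH hW hHW hy => ?_⟩
  have hT2 : 16 ≤ T := (le_max_left _ _).trans hT
  have hT3 : 24 * |η| / d ≤ T := (le_max_right _ _).trans hT
  have hTpos : 0 < T := by linarith
  have hlogT := log_le_half hT2
  have hyT : |y| ≤ T / 2 := hy.trans hlogT
  obtain ⟨hy1, hy2⟩ := abs_le.1 hyT
  have hv : ∀ u ∈ Icc H (H + W), T / 2 ≤ u + y ∧ u + y ≤ 3 * T := by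
    intro u hu
    exact ⟨by linarith [hu.1], by linarith [hu.2]⟩
  have hpos : ∀ u ∈ Icc H (H + W), 0 < u + y := fun u hu => by linarith [(hv u hu).1]
  have hsecond : ‖IO d B η H W y L‖ ≤ 104 * Real.sqrt (6 / d) * Real.sqrt T := by
    set φ : ℝ → ℝ := fun u => phs d B η L (u + y) with hφ
    set φ' : ℝ → ℝ := fun u => d * (Real.log (u + y) + 1) + B + η / (u + y) - L with hφ'
    set φ'' : ℝ → ℝ := fun u => d / (u + y) - η / (u + y) ^ 2 with hφ''
    have hid : ∀ u : ℝ, HasDerivAt (fun u : ℝ => u + y) 1 u := fun u =>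
      (hasDerivAt_id u).add_const y
    have hd1 : ∀ t ∈ Icc H (H + W), HasDerivAt φ (φ' t) t := by
      intro t ht
      have ht' := (hpos t ht).ne'
      have a1 : HasDerivAt (fun u : ℝ => Real.log (u + y)) (1 / (t + y)) t := (hid t).log ht'
      have a2 := hid t
      have a3 := ((((a2.const_mul d).mul a1).add (a2.const_mul B)).add (a1.const_mul η)).sub
        (a2.mul_const L)
      refine a3.congr_deriv ?_
      rw [hφ']
      field_simp
    have hd2 : ∀ t ∈ Icc H (H + W), HasDerivAt φ' (φ'' t) t := by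
      intro t ht
      have ht' := (hpos t ht).ne'
      have a1 : HasDerivAt (fun u : ℝ => Real.log (u + y)) (1 / (t + y)) t := (hid t).log ht'
      have a4 : HasDerivAt (fun t : ℝ => η / (t + y)) (-(η / (t + y) ^ 2)) t := by
        have := ((hid t).inv ht').const_mul η
        refine this.congr_deriv ?_
        ring
      have a3 := ((((a1.add_const 1).const_mul d).add_const B).add a4).sub_const L
      refine a3.congr_deriv ?_
      rw [hφ'']
      ring
    have hc2 : ContinuousOn φ'' (Icc H (H + W)) := by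
      refine ContinuousOn.sub ?_ ?_
      · exact continuousOn_const.div (continuousOn_id.add continuousOn_const)
          fun t ht => (hpos t ht).ne'
      · exact continuousOn_const.div ((continuousOn_id.add continuousOn_const).pow 2) fun t ht =>
          pow_ne_zero _ (hpos t ht).ne'
    have hlam : 0 < d / (6 * T) := by positivity
    have hge : ∀ t ∈ Icc H (H + W), d / (6 * T) ≤ φ'' t := by
      intro t ht
      have ht' := hpos t ht
      obtain ⟨htT, htT3⟩ := hv t ht
      have e1 : 24 * |η| ≤ T * d := by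
        rwa [div_le_iff₀ hd] at hT3
      have e2 : η / (t + y) ^ 2 ≤ |η| / (t + y) ^ 2 := by
        gcongr
        exact le_abs_self η
      have e3 : |η| / (t + y) ^ 2 ≤ d / (12 * (t + y)) := by
        rw [div_le_div_iff₀ (by positivity) (by positivity)]
        have : 12 * |η| ≤ d * (t + y) := by nlinarith
        nlinarith
      have e4 : d / (t + y) - d / (12 * (t + y)) = (11 / 12) * (d / (t + y)) := by
        field_simp; ring
      have e5 : d / (3 * T) ≤ d / (t + y) := by
        gcongr
      have e6 : d / (6 * T) = (1 / 2) * (d / (3 * T)) := by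
        field_simp; ring
      have e7 : 0 < d / (3 * T) := by positivity
      rw [hφ'']
      simp only
      rw [e6]
      linarith
    have hlin : ∀ u : ℝ, HasDerivAt (fun u : ℝ => (u - H) / W) (1 / W) u := fun u =>
      ((hasDerivAt_id u).sub_const H).div_const W
    have hw : ∀ x ∈ Icc H (H + W), HasDerivAt (fun u : ℝ => (om ((u - H) / W) : ℂ))
        (((om' ((x - H) / W) * (1 / W) : ℝ)) : ℂ) x := by
      intro x _
      have h1 : HasDerivAt (fun u : ℝ => om ((u - H) / W)) (om' ((x - H) / W) * (1 / W)) x :=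
        HasDerivAt.comp (h₂ := om) (h := fun u : ℝ => (u - H) / W) x
          (hasDerivAt_om ((x - H) / W)) (hlin x)
      exact h1.ofReal_comp
    have hw'c : ContinuousOn (fun x : ℝ => (((om' ((x - H) / W) * (1 / W) : ℝ)) : ℂ))
        (Icc H (H + W)) := by
      refine Continuous.continuousOn ?_
      unfold om'
      fun_prop
    have hwb : ∀ x ∈ Icc H (H + W), ‖(om ((x - H) / W) : ℂ)‖ ≤ 1 := by
      intro x hx
      obtain ⟨h0, h1⟩ := unit_of_mem hW hx
      rw [Complex.norm_real, Real.norm_eq_abs]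
      exact abs_om_le h0 h1
    have hw'b : ∀ x ∈ Icc H (H + W), ‖(((om' ((x - H) / W) * (1 / W) : ℝ)) : ℂ)‖ ≤ 12 / W := by
      intro x hx
      obtain ⟨h0, h1⟩ := unit_of_mem hW hx
      rw [Complex.norm_real, Real.norm_eq_abs, abs_mul, abs_of_pos (one_div_pos.2 hW),
        div_eq_mul_one_div 12 W]
      have := abs_om'_le h0 h1
      have h2 : 0 < 1 / W := one_div_pos.2 hW
      nlinarith
    have hwv := hWV H (H + W) (d / (6 * T)) 1 (12 / W) φ φ' φ'' _ _ (by linarith) hlam hd1 hd2
      hc2 hge hw hw'c hwb hw'b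
    have hs : 8 / Real.sqrt (d / (6 * T)) = 8 * Real.sqrt (6 / d) * Real.sqrt T := by
      rw [mul_assoc, ← Real.sqrt_mul (by positivity), div_eq_mul_inv, ← Real.sqrt_inv]
      congr 2
      field_simp
    have hk : (1 : ℝ) + 12 / W * (H + W - H) = 13 := by
      field_simp; ring
    rw [hs, hk] at hwv
    unfold Pool.Agent.H25.DP.IO
    refine hwv.trans (le_of_eq ?_)
    ring
  have htriv := io_trivial d B η H W y L hW
  have hs0 : 0 ≤ Real.sqrt (6 / d) := Real.sqrt_nonneg _
  have hm0 : 0 ≤ min W (Real.sqrt T) := le_min hW.le (Real.sqrt_nonneg _)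
  rcases le_total W (Real.sqrt T) with hle | hle
  · rw [min_eq_left hle]
    nlinarith
  · rw [min_eq_right hle]
    nlinarith [Real.sqrt_nonneg T]

theorem ioc (hA : T_IOA) (hB : T_IOB) : T_IOC := by
  intro d B η hd
  obtain ⟨C₁, T₁, hC₁, h₁⟩ := hA d B η hd
  obtain ⟨C₂, T₂, hC₂, h₂⟩ := hB d B η hd
  set d' : ℝ := max d 1 with hd'
  have hd'1 : 1 ≤ d' := le_max_right _ _
  have hdd' : d ≤ d' := le_max_left _ _
  refine ⟨16 * C₂ + C₁ * (1 + 8 * d') ^ 2, max 16 (max T₁ T₂), by positivity,
    fun T hT H W y L hTH hlW hHW hy => ?_⟩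
  have hT2 : 16 ≤ T := (le_max_left _ _).trans hT
  have hTT₁ : T₁ ≤ T := (le_max_left _ _).trans ((le_max_right _ _).trans hT)
  have hTT₂ : T₂ ≤ T := (le_max_right _ _).trans ((le_max_right _ _).trans hT)
  have hTpos : 0 < T := by linarith
  have hlogT := log_le_half hT2
  have hlog0 : 0 < Real.log T := Real.log_pos (by linarith)
  have hW : 0 < W := by linarith
  set D : ℝ := max (1 / W) (W / T) with hD
  set E : ℝ := |d * Real.log H + d + B - L| with hE
  have hD0 : 0 < D := lt_of_lt_of_le (one_div_pos.2 hW) (le_max_left _ _)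
  have hE0 : 0 ≤ E := abs_nonneg _
  have hDW : W / T ≤ D := le_max_right _ _
  have hm0 : 0 < min W (Real.sqrt T) := lt_min hW (Real.sqrt_pos.2 hTpos)
  rcases le_or_gt (8 * d' * D) E with hcase | hcase
  · -- away from the stationary point
    have hEpos : 0 < E := lt_of_lt_of_le (by positivity) hcase
    have hWTpos : 0 < W / T := by positivity
    have hδ : W / T ≤ E / 2 := by nlinarith
    have hyT : |y| ≤ T / 2 := hy.trans hlogT
    obtain ⟨hy1, hy2⟩ := abs_le.1 hyT
    obtain ⟨hz1, hz2⟩ := abs_le.1 (hy.trans hlW)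
    have hder : ∀ u ∈ Icc H (H + W), E / 2 ≤ |d * Real.log (u + y) + d + B - L| := by
      intro u hu
      have hv : T / 2 ≤ u + y := by linarith [hu.1]
      have hvpos : 0 < u + y := by linarith
      have hHpos : 0 < H := by linarith
      have hlog1 : Real.log (u + y) - Real.log H ≤ 4 * (W / T) := by
        have h1 := Real.log_le_sub_one_of_pos (div_pos hvpos hHpos)
        rw [Real.log_div hvpos.ne' hHpos.ne'] at h1
        have h2 : (u + y) / H - 1 ≤ 4 * (W / T) := by
          rw [div_sub_one hHpos.ne', mul_div_assoc', div_le_div_iff₀ hHpos hTpos]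
          have : u + y - H ≤ 2 * W := by linarith [hu.2]
          nlinarith
        linarith
      have hlog2 : Real.log H - Real.log (u + y) ≤ 4 * (W / T) := by
        have h1 := Real.log_le_sub_one_of_pos (div_pos hHpos hvpos)
        rw [Real.log_div hHpos.ne' hvpos.ne'] at h1
        have h2 : H / (u + y) - 1 ≤ 4 * (W / T) := by
          rw [div_sub_one hvpos.ne', mul_div_assoc', div_le_div_iff₀ hvpos hTpos]
          have : H - (u + y) ≤ W := by linarith [hu.1]
          nlinarith
        linarith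
      have h3 : |d * Real.log (u + y) + d + B - L - (d * Real.log H + d + B - L)| ≤
          4 * d * (W / T) := by
        rw [show d * Real.log (u + y) + d + B - L - (d * Real.log H + d + B - L) =
          d * (Real.log (u + y) - Real.log H) by ring, abs_mul, abs_of_pos hd]
        have : |Real.log (u + y) - Real.log H| ≤ 4 * (W / T) := by
          rw [abs_le]; constructor <;> linarith
        nlinarith
      have h4 : 4 * d * (W / T) ≤ E / 2 := by
        have h5 : d * (W / T) ≤ d' * D := mul_le_mul hdd' hDW (by positivity) (by linarith)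
        nlinarith
      have h5 := abs_sub_abs_le_abs_sub (d * Real.log H + d + B - L)
        (d * Real.log (u + y) + d + B - L)
      rw [abs_sub_comm] at h3
      linarith
    have hIO := h₂ T hTT₂ H W y L (E / 2) hTH hlW hHW hy hδ hder
    refine hIO.trans ?_
    have hDE : D ≤ E := by nlinarith
    have hkey : 1 ≤ W * min W (Real.sqrt T) * D ^ 2 := by
      rcases le_total W (Real.sqrt T) with hle | hle
      · rw [min_eq_left hle]
        have h6 : 1 / W ≤ D := le_max_left _ _
        have h7 : 1 ≤ W * D := by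
          rw [div_le_iff₀ hW] at h6
          linarith
        have h8 : W * W * D ^ 2 = (W * D) ^ 2 := by ring
        rw [h8]
        nlinarith
      · rw [min_eq_right hle]
        have hs : 0 < Real.sqrt T := Real.sqrt_pos.2 hTpos
        have hss : Real.sqrt T * Real.sqrt T = T := Real.mul_self_sqrt hTpos.le
        have h9 : 1 ≤ W / Real.sqrt T := by rwa [one_le_div hs]
        have h10 : W / T = (W / Real.sqrt T) / Real.sqrt T := by
          rw [div_div, hss]
        calc (1 : ℝ) ≤ (W / Real.sqrt T) ^ 3 := one_le_pow₀ h9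
          _ = W * Real.sqrt T * (W / T) ^ 2 := by
            rw [h10]; field_simp
          _ ≤ W * Real.sqrt T * D ^ 2 := by gcongr
    have hq : D ^ 2 / (4 * E ^ 2) ≤ (D / (D + E)) ^ 2 := by
      rw [div_pow, div_le_div_iff_of_pos_left (by positivity) (by positivity) (by positivity)]
      nlinarith
    have hstep : C₂ / (W * (E / 2) ^ 2) ≤
        16 * C₂ * min W (Real.sqrt T) * (D ^ 2 / (4 * E ^ 2)) := by
      have e1 : C₂ / (W * (E / 2) ^ 2) = 4 * C₂ / E ^ 2 * (1 / W) := by
        field_simp; ring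
      have e2 : 16 * C₂ * min W (Real.sqrt T) * (D ^ 2 / (4 * E ^ 2)) =
          4 * C₂ / E ^ 2 * (min W (Real.sqrt T) * D ^ 2) := by
        field_simp; ring
      rw [e1, e2]
      refine mul_le_mul_of_nonneg_left ?_ (by positivity)
      rw [div_le_iff₀ hW]
      nlinarith
    refine hstep.trans ?_
    have h11 : 16 * C₂ * min W (Real.sqrt T) * (D ^ 2 / (4 * E ^ 2)) ≤
        16 * C₂ * min W (Real.sqrt T) * (D / (D + E)) ^ 2 := by gcongr
    refine h11.trans ?_
    have h12 : 0 ≤ C₁ * (1 + 8 * d') ^ 2 := by positivity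
    have h13 : 0 ≤ min W (Real.sqrt T) * (D / (D + E)) ^ 2 := by positivity
    nlinarith
  · -- near the stationary point
    have hIO := h₁ T hTT₁ H W y L hTH hW hHW hy
    refine hIO.trans ?_
    have h1 : 1 / (1 + 8 * d') ≤ D / (D + E) := by
      rw [div_le_div_iff₀ (by positivity) (by positivity)]
      nlinarith
    have h2 : 1 ≤ (1 + 8 * d') ^ 2 * (D / (D + E)) ^ 2 := by
      rw [← mul_pow]
      refine one_le_pow₀ ?_
      rw [div_le_iff₀ (by positivity)] at h1
      linarith
    have h3 : C₁ * min W (Real.sqrt T) ≤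
        C₁ * min W (Real.sqrt T) * ((1 + 8 * d') ^ 2 * (D / (D + E)) ^ 2) :=
      le_mul_of_one_le_right (by positivity) h2
    refine h3.trans ?_
    have h4 : 0 ≤ 16 * C₂ * (min W (Real.sqrt T) * (D / (D + E)) ^ 2) := by positivity
    nlinarith

end Pool.Agent.H14.DP
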